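import Mathlib

/-!
# The key combinatorial theorem about a self-similar word

A self-similar word `W` over an alphabet `α` with parameter `r`: the letter `W (k * r + t)` is a
function of `t` and `W k`, it determines `t`, and two consecutive letters inside a block of
length `r` determine the letter `W k` they come from.
-/

namespace Pool.Agent.H88.Brandt

/-- A self-similar word with block length `r`. -/
structure SelfSim (r : ℕ) (α : Type) where
  W : ℕ → α
  off : α → ℕ
  sub : ℕ → α → α
  dec : ℕ → α → α → α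
  off_W : ∀ p, off (W p) = p % r
  W_sub : ∀ k t, t < r → W (k * r + t) = sub t (W k)
  dec_W : ∀ k j, j + 1 < r → dec j (W (k * r + j)) (W (k * r + (j + 1))) = W k

section Defs

variable {α : Type} (W : ℕ → α) (len : ℕ → ℕ) (φ : ℕ → ℕ → α)

/-- The word assigned to the variable `x` is the factor of `W` starting at `g`. -/
def Mat (x g : ℕ) : Prop := ∀ i < len x, φ x i = W (g + i)

/-- The total length of a word. -/
def wl : List ℕ → ℕ
  | [] => 0
  | x :: u => len x + wl u

/-- The word `u` is read along `W` from the position `g` on. -/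
def Parse : ℕ → List ℕ → Prop
  | _, [] => True
  | g, x :: u => Mat W len φ x g ∧ Parse (g + len x) u

/-- `g` is a position at which `x` occurs in a word of `U` (read from `a` on). -/
def Occ (U : Set (List ℕ)) (a x g : ℕ) : Prop :=
  ∃ u' u'' : List ℕ, u' ++ x :: u'' ∈ U ∧ g = a + wl len u'

/-- Colourings which give an assignment into the Brandt monoid. -/
def Valid (U : Set (List ℕ)) (a : ℕ) (c : ℕ → Bool) : Prop :=
  ∀ x g g', Occ len U a x g → Occ len U a x g' →
    (c g = c g' ∧ c (g + len x) = c (g' + len x)) ∨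
      (c g = c (g + len x) ∧ c g' = c (g' + len x))

/-- The word can be read from the state `s` to the state `s'`. -/
def Acc (U : Set (List ℕ)) (a : ℕ) (c : ℕ → Bool) : Bool → List ℕ → Bool → Prop
  | s, [], s' => s = s'
  | s, y :: v, s' => ∃ g, Occ len U a y g ∧ c g = s ∧ Acc U a c (c (g + len y)) v s'

end Defs

section Basic

variable {α : Type} {W : ℕ → α} {len : ℕ → ℕ} {φ : ℕ → ℕ → α}

@[simp] theorem wl_nil : wl len [] = 0 := rfl

@[simp] theorem wl_cons (x : ℕ) (u : List ℕ) : wl len (x :: u) = len x + wl len u := rfl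

theorem wl_append (u v : List ℕ) : wl len (u ++ v) = wl len u + wl len v := by
  induction u with
  | nil => simp
  | cons x u ih => simp [ih, Nat.add_assoc]

theorem Parse.mat {g : ℕ} {u' u'' : List ℕ} {x : ℕ} (h : Parse W len φ g (u' ++ x :: u'')) :
    Mat W len φ x (g + wl len u') := by
  induction u' generalizing g with
  | nil => exact h.1
  | cons y u' ih =>
    have := ih h.2
    rwa [wl_cons, ← Nat.add_assoc]

theorem parse_of {g : ℕ} {v : List ℕ}
    (h : ∀ v' y v'', v = v' ++ y :: v'' → Mat W len φ y (g + wl len v')) :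
    Parse W len φ g v := by
  induction v generalizing g with
  | nil => trivial
  | cons y v ih =>
    refine ⟨h [] y v rfl, ih fun v' z v'' e => ?_⟩
    have := h (y :: v') z v'' (by rw [e]; rfl)
    rwa [wl_cons, ← Nat.add_assoc] at this

theorem acc_append {U : Set (List ℕ)} {a : ℕ} {c : ℕ → Bool} {s s' : Bool} {v v' : List ℕ}
    (h : Acc len U a c s (v ++ v') s') : ∃ t, Acc len U a c s v t ∧ Acc len U a c t v' s' := by
  induction v generalizing s with
  | nil => exact ⟨s, rfl, h⟩
  | cons y v ih =>
    obtain ⟨g, h1, h2, h3⟩ := h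
    obtain ⟨t, h4, h5⟩ := ih h3
    exact ⟨t, ⟨g, h1, h2, h4⟩, h5⟩

end Basic

/-! ### The reduction map -/

/-- The number of cuts `k * r + j` below `g`. -/
def D (r j g : ℕ) : ℕ := (g + (r - 1 - j)) / r

theorem lt_D {r j g k : ℕ} (hj : j < r) : k < D r j g ↔ k * r + j < g := by
  have h : k < D r j g ↔ (k + 1) * r ≤ g + (r - 1 - j) := by
    rw [D, Nat.lt_iff_add_one_le, Nat.le_div_iff_mul_le (by omega)]
  rw [h, Nat.add_mul, Nat.one_mul]
  omega

theorem D_mul_add {r j : ℕ} (hj : j < r) (k g : ℕ) : D r j (k * r + g) = k + D r j g := by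
  unfold D
  rw [Nat.add_assoc, Nat.add_comm (k * r), Nat.add_mul_div_right _ _ (by omega), Nat.add_comm]

theorem D_mono {r j g g' : ℕ} (hj : j < r) (h : g ≤ g') : D r j g ≤ D r j g' := by
  by_contra hc
  push Not at hc
  have := (lt_D hj).1 hc
  have h2 : D r j g' < D r j g' := (lt_D hj).2 (by omega)
  omega

theorem D_lt {r j g : ℕ} (h1 : 1 ≤ j) (hj : j < r) (hg : 0 < g) : D r j g < g := by
  unfold D
  rw [Nat.div_lt_iff_lt_mul (by omega)]
  obtain ⟨g', rfl⟩ : ∃ g', g = g' + 1 := ⟨g - 1, by omega⟩
  have : g' ≤ g' * r := Nat.le_mul_of_pos_right _ (by omega)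
  rw [Nat.add_mul, Nat.one_mul]
  omega

theorem D_inj {r j g g' : ℕ} (hj : j < r) (h : D r j g = D r j g') (h2 : g % r = g' % r) :
    g = g' := by
  have e1 : g = g / r * r + g % r := by rw [Nat.mul_comm]; exact (Nat.div_add_mod g r).symm
  have e2 : g' = g' / r * r + g' % r := by rw [Nat.mul_comm]; exact (Nat.div_add_mod g' r).symm
  rw [e1, e2, D_mul_add hj, D_mul_add hj, h2] at h
  have : g / r = g' / r := by omega
  rw [e1, e2, this, h2]

theorem mul_add_mod' {r s : ℕ} (k : ℕ) (hs : s < r) : (k * r + s) % r = s := by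
  rw [Nat.add_comm, Nat.add_mul_mod_self_right, Nat.mod_eq_of_lt hs]

theorem mul_add_div' {r s : ℕ} (k : ℕ) (hs : s < r) : (k * r + s) / r = k := by
  rw [Nat.add_comm, Nat.add_mul_div_right _ _ (by omega), Nat.div_eq_of_lt hs, Nat.zero_add]

theorem split' (p r : ℕ) : p = p / r * r + p % r := by
  rw [Nat.mul_comm]; exact (Nat.div_add_mod p r).symm

end Pool.Agent.H88.Brandt
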