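import Mathlib

/-!
# Ai-semirings, identities, and the Brandt monoid semiring: definitions
-/

namespace Pool.Agent.H88.Brandt

/-- The axioms of additively idempotent semirings, in the signature `{+, ·}`: `(S, +)` is a
semilattice, `(S, ·)` is a semigroup, and multiplication distributes over addition on both
sides. -/
structure IsAiSemiring (S : Type) [Add S] [Mul S] : Prop where
  add_assoc : ∀ x y z : S, x + y + z = x + (y + z)
  add_comm : ∀ x y : S, x + y = y + x
  add_idem : ∀ x : S, x + x = x
  mul_assoc : ∀ x y z : S, x * y * z = x * (y * z)
  mul_add : ∀ x y z : S, x * (y + z) = x * y + x * z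
  add_mul : ∀ x y z : S, (x + y) * z = x * z + y * z

/-- Terms in the signature `{+, ·}`, in the variables indexed by the natural numbers. -/
inductive Term
  | var : ℕ → Term
  | add : Term → Term → Term
  | mul : Term → Term → Term

/-- The value of a term in an algebra `S` under an assignment of the variables. -/
def Term.eval {S : Type} [Add S] [Mul S] (θ : ℕ → S) : Term → S
  | .var i => θ i
  | .add s t => s.eval θ + t.eval θ
  | .mul s t => s.eval θ * t.eval θ

/-- The algebra `S` satisfies all the identities in `E`; the pair `(s, t)` stands for the identity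
`s ≈ t`.  The variety defined by `E` consists of the algebras `S` such that `Models S E`. -/
def Models (S : Type) [Add S] [Mul S] (E : Set (Term × Term)) : Prop :=
  ∀ e ∈ E, ∀ θ : ℕ → S, e.1.eval θ = e.2.eval θ

/-- The set `G` generates the algebra `S`: every subset of `S` which contains `G` and is closed
under both operations is equal to `S`. -/
def Generates {S : Type} [Add S] [Mul S] (G : Set S) : Prop :=
  ∀ T : Set S, G ⊆ T → (∀ x ∈ T, ∀ y ∈ T, x + y ∈ T ∧ x * y ∈ T) → T = Set.univ

/-- The variety defined by the identities in `E` is locally finite: each of its finitely generated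
members is finite. -/
def LocallyFinite (E : Set (Term × Term)) : Prop :=
  ∀ (S : Type) [Add S] [Mul S], Models S E → ∀ G : Set S, G.Finite → Generates G → Finite S

/-- The variety defined by the identities in `E` is finitely based: it is also defined by finitely
many identities. -/
def FinitelyBased (E : Set (Term × Term)) : Prop :=
  ∃ E₀ : Set (Term × Term), E₀.Finite ∧
    ∀ (S : Type) [Add S] [Mul S], Models S E ↔ Models S E₀

/-- The algebra `A` is inherently nonfinitely based: no locally finite variety (of the same
signature) which contains `A` is finitely based. -/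
def InherentlyNonfinitelyBased (A : Type) [Add A] [Mul A] : Prop :=
  ∀ E : Set (Term × Term), Models A E → LocallyFinite E → ¬ FinitelyBased E

/-- The elements of the Brandt monoid: the matrix units `a = e₁₂`, `b = e₂₁`, `ab = e₁₁`,
`ba = e₂₂`, the identity matrix and the zero matrix. -/
inductive B21
  | one | a | b | ab | ba | zero
  deriving DecidableEq

/-- The multiplication table of the Brandt monoid. -/
def B21.mul : B21 → B21 → B21
  | .one, y => y
  | x, .one => x
  | .a, .b => .ab
  | .a, .ba => .a
  | .b, .a => .ba
  | .b, .ab => .b
  | .ab, .a => .a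
  | .ab, .ab => .ab
  | .ba, .b => .b
  | .ba, .ba => .ba
  | _, _ => .zero

/-- The addition: `x + x = x`, `ab + 1 = ab`, `ba + 1 = ba`, and `x + y = 0` for all other pairs
`x ≠ y`. -/
def B21.add (x y : B21) : B21 :=
  if x = y then x
  else if (x = .ab ∧ y = .one) ∨ (x = .one ∧ y = .ab) then .ab
  else if (x = .ba ∧ y = .one) ∨ (x = .one ∧ y = .ba) then .ba
  else .zero

instance : Mul B21 := ⟨B21.mul⟩

instance : Add B21 := ⟨B21.add⟩

end Pool.Agent.H88.Brandt
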