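import Pool.Agent.H88.Brandt.Sem

/-!
# The flat algebra of the factors of a word, and the theorem
-/

namespace Pool.Agent.H88.Brandt

section Flat

variable {α : Type} (W : ℕ → α)

/-- The factor of `W` of length `n` starting at `g`. -/
def seg (g n : ℕ) : List α := (List.range n).map fun i => W (g + i)

@[simp] theorem length_seg (g n : ℕ) : (seg W g n).length = n := by simp [seg]

theorem seg_add (g m n : ℕ) : seg W g (m + n) = seg W g m ++ seg W (g + m) n := by
  simp only [seg, List.range_add, List.map_append, List.map_map]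
  congr 1
  apply List.map_congr_left
  intro i _
  simp [Nat.add_assoc]

theorem seg_zero (g : ℕ) : seg W g 0 = [] := rfl

/-- The finite factors of `W`. -/
def Fac (w : List α) : Prop := ∃ g n, w = seg W g n

theorem fac_seg (g n : ℕ) : Fac W (seg W g n) := ⟨g, n, rfl⟩

theorem fac_single (g : ℕ) : Fac W [W g] := ⟨g, 1, rfl⟩

theorem fac_nil : Fac W [] := ⟨0, 0, rfl⟩

variable {W}

theorem eq_seg {g n : ℕ} {u : List α} :
    u = seg W g n ↔ u.length = n ∧ ∀ i (h : i < u.length), u[i] = W (g + i) := by
  constructor
  · rintro rfl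
    refine ⟨by simp, fun i h => ?_⟩
    simp [seg]
  · rintro ⟨rfl, h⟩
    apply List.ext_getElem (by simp)
    intro i h1 h2
    rw [h i h1]
    simp [seg]

theorem Fac.append {u v : List α} (h : Fac W (u ++ v)) : Fac W u ∧ Fac W v := by
  obtain ⟨g, n, h⟩ := h
  have hl : u.length + v.length = n := by
    have := congrArg List.length h
    simpa using this
  rw [← hl, seg_add] at h
  obtain ⟨h1, h2⟩ := List.append_inj h (by simp)
  exact ⟨⟨_, _, h1⟩, ⟨_, _, h2⟩⟩

variable (W) in
/-- The flat algebra of the factors of `W`: the factors (with the empty one) and a zero. -/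
inductive Alg : Type
  | zero : Alg
  | word (w : List α) (h : Fac W w) : Alg

open Classical in
noncomputable instance : Add (Alg W) := ⟨fun x y => if x = y then x else .zero⟩

open Classical in
/-- The product of the flat algebra. -/
noncomputable def Alg.mul : Alg W → Alg W → Alg W
  | .word u _, .word v _ => if h : Fac W (u ++ v) then .word (u ++ v) h else .zero
  | .word _ _, .zero => .zero
  | .zero, _ => .zero

noncomputable instance : Mul (Alg W) := ⟨Alg.mul⟩

theorem Alg.add_eq_word {x y : Alg W} {w : List α} {h : Fac W w} :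
    x + y = .word w h ↔ x = .word w h ∧ y = .word w h := by
  classical
  have e : x + y = if x = y then x else .zero := by
    change (@ite _ (x = y) (Classical.propDecidable _) x .zero) = _
    congr
  rw [e]
  split
  · rename_i hxy
    subst hxy
    simp
  · rename_i hxy
    constructor
    · intro h
      cases h
    · rintro ⟨rfl, rfl⟩
      exact absurd rfl hxy

theorem Alg.mul_eq_word {x y : Alg W} {w : List α} {h : Fac W w} :
    x * y = .word w h ↔ ∃ u hu v hv, x = .word u hu ∧ y = .word v hv ∧ u ++ v = w := by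
  have e : x * y = Alg.mul x y := rfl
  rw [e]
  cases x with
  | zero => simp [Alg.mul]
  | word u hu =>
    cases y with
    | zero => simp [Alg.mul]
    | word v hv =>
      rw [Alg.mul]
      constructor
      · intro h1
        refine ⟨u, hu, v, hv, rfl, rfl, ?_⟩
        split at h1
        · cases h1
          rfl
        · cases h1
      · rintro ⟨u', hu', v', hv', h1, h2, h3⟩
        cases h1
        cases h2
        subst h3
        rw [dif_pos h]

/-- The word of an element. -/
def Alg.toList : Alg W → List α
  | .zero => []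
  | .word w _ => w

theorem Alg.eq_word {x : Alg W} {w : List α} {h : Fac W w} :
    x = .word w h ↔ x ≠ .zero ∧ x.toList = w := by
  cases x with
  | zero => simp
  | word u hu => simp [Alg.toList]

theorem Alg.eval_eq_word (θ : ℕ → Alg W) (t : Term) (w : List α) (h : Fac W w) :
    t.eval θ = .word w h ↔
      ∀ u ∈ t.wd, (∀ x ∈ u, θ x ≠ .zero) ∧ u.flatMap (fun x => (θ x).toList) = w := by
  induction t generalizing w with
  | var x =>
    rw [Term.eval, Term.wd, Alg.eq_word]
    simp
  | add s t hs ht =>
    rw [Term.eval, Alg.add_eq_word, hs, ht]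
    constructor
    · rintro ⟨h1, h2⟩ u (hu | hu)
      · exact h1 u hu
      · exact h2 u hu
    · intro h
      exact ⟨fun u hu => h u (Or.inl hu), fun u hu => h u (Or.inr hu)⟩
  | mul s t hs ht =>
    rw [Term.eval, Alg.mul_eq_word]
    constructor
    · rintro ⟨u, hu, v, hv, h1, h2, rfl⟩ w ⟨u', hu', v', hv', rfl⟩
      obtain ⟨a1, a2⟩ := (hs u hu).1 h1 u' hu'
      obtain ⟨b1, b2⟩ := (ht v hv).1 h2 v' hv'
      refine ⟨fun x hx => ?_, by rw [List.flatMap_append, a2, b2]⟩
      rcases List.mem_append.1 hx with hx | hx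
      · exact a1 x hx
      · exact b1 x hx
    · intro h1
      obtain ⟨u₀, hu₀⟩ := s.wd_nonempty
      obtain ⟨v₀, hv₀⟩ := t.wd_nonempty
      have h0 := (h1 _ ⟨u₀, hu₀, v₀, hv₀, rfl⟩).2
      rw [List.flatMap_append] at h0
      have hf : Fac W (u₀.flatMap (fun x => (θ x).toList) ++
          v₀.flatMap (fun x => (θ x).toList)) := by rwa [h0]
      refine ⟨_, hf.append.1, _, hf.append.2, (hs _ _).2 fun u hu => ?_,
        (ht _ _).2 fun v hv => ?_, h0⟩
      · obtain ⟨c1, c2⟩ := h1 _ ⟨u, hu, v₀, hv₀, rfl⟩
        rw [List.flatMap_append, ← h0] at c2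
        exact ⟨fun x hx => c1 x (by simp [hx]), List.append_cancel_right c2⟩
      · obtain ⟨c1, c2⟩ := h1 _ ⟨u₀, hu₀, v, hv, rfl⟩
        rw [List.flatMap_append, ← h0] at c2
        exact ⟨fun x hx => c1 x (by simp [hx]), List.append_cancel_left c2⟩

theorem wl_flatMap (c : ℕ → List α) (u : List ℕ) :
    wl (fun x => (c x).length) u = (u.flatMap c).length := by
  induction u with
  | nil => rfl
  | cons x u ih => simp [ih]

theorem parse_iff (c : ℕ → List α) (d : α) (a : ℕ) (u : List ℕ) :
    Parse W (fun x => (c x).length) (fun x i => (c x).getD i d) a u ↔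
      u.flatMap c = seg W a (wl (fun x => (c x).length) u) := by
  induction u generalizing a with
  | nil => exact ⟨fun _ => rfl, fun _ => trivial⟩
  | cons x u ih =>
    rw [Parse, ih, List.flatMap_cons, wl_cons, seg_add]
    have hx : Mat W (fun x => (c x).length) (fun x i => (c x).getD i d) x a ↔
        c x = seg W a (c x).length := by
      rw [eq_seg]
      constructor
      · intro h
        refine ⟨rfl, fun i hi => ?_⟩
        rw [← h i hi]
        exact (List.getD_eq_getElem _ _ hi).symm
      · rintro ⟨-, h⟩ i hi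
        change (c x).getD i d = _
        rw [List.getD_eq_getElem _ _ hi, h i hi]
    rw [hx]
    constructor
    · rintro ⟨h1, h2⟩
      rw [← h1, h2]
    · intro h
      exact List.append_inj h (by simp)

end Flat

/-- An identity of the Brandt monoid semiring with few variables holds in the flat algebra of a
self-similar word. -/
theorem eval_word {s t : Term} (hst : ∀ θ : ℕ → B21, s.eval θ = t.eval θ) {r : ℕ} {α : Type}
    (S : SelfSim r α) (hr : 2 * s.vars.card + 2 ≤ r) (θ : ℕ → Alg S.W) {w : List α}
    {h : Fac S.W w} (hs : s.eval θ = .word w h) : t.eval θ = .word w h := by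
  rw [Alg.eval_eq_word] at hs ⊢
  obtain ⟨a, L, rfl⟩ := h
  intro v hv
  have hU : ∀ u ∈ s.wd, Parse S.W (fun x => ((θ x).toList).length)
      (fun x i => ((θ x).toList).getD i (S.W 0)) a u ∧
      wl (fun x => ((θ x).toList).length) u = L := by
    intro u hu
    have h1 := (hs u hu).2
    have h2 : wl (fun x => ((θ x).toList).length) u = L := by
      rw [wl_flatMap, h1, length_seg]
    refine ⟨?_, h2⟩
    rw [parse_iff, h1, h2]
  obtain ⟨⟨h1, h2⟩, h3⟩ := reading hst S hr hU hv
  rw [parse_iff, h2] at h1
  refine ⟨fun x hx => ?_, h1⟩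
  obtain ⟨u, hu, hxu⟩ := h3 x hx
  exact (hs u hu).1 x hxu

theorem models_flat {s t : Term} (hst : ∀ θ : ℕ → B21, s.eval θ = t.eval θ) {r : ℕ} {α : Type}
    (S : SelfSim r α) (h1 : 2 * s.vars.card + 2 ≤ r) (h2 : 2 * t.vars.card + 2 ≤ r)
    (θ : ℕ → Alg S.W) : s.eval θ = t.eval θ := by
  cases hs : s.eval θ with
  | word w h => exact (eval_word hst S h1 θ hs).symm
  | zero =>
    cases ht : t.eval θ with
    | zero => rfl
    | word w h =>
      have := eval_word (fun θ => (hst θ).symm) S h2 θ ht
      rw [this] at hs
      cases hs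

theorem inherent : InherentlyNonfinitelyBased B21 := by
  classical
  rintro E hE hlf ⟨E₀, hfin, heq⟩
  have hE₀ : Models B21 E₀ := (heq B21).1 hE
  obtain ⟨n, hn⟩ : ∃ n, ∀ e ∈ E₀, e.1.vars.card ≤ n ∧ e.2.vars.card ≤ n := by
    refine ⟨hfin.toFinset.sup fun e => e.1.vars.card + e.2.vars.card, fun e he => ?_⟩
    have h : e.1.vars.card + e.2.vars.card ≤
        hfin.toFinset.sup fun e => e.1.vars.card + e.2.vars.card :=
      Finset.le_sup (f := fun e : Term × Term => e.1.vars.card + e.2.vars.card)
        (hfin.mem_toFinset.2 he)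
    omega
  have hM : Models (Alg (ssw (2 * n)).W) E₀ := by
    intro e he θ
    obtain ⟨h1, h2⟩ := hn e he
    exact models_flat (hE₀ e he) _ (by omega) (by omega) θ
  -- the generators
  generalize hWW : (ssw (2 * n)).W = W at hM
  have hWm : ∀ p, W p ∈ (Set.Iio (2 * n + 2) ×ˢ Set.Iio (2 * n + 2) : Set (ℕ × ℕ)) := by
    intro p
    rw [← hWW]
    exact ssw_mem _ _
  let f : ℕ × ℕ → Alg W := fun l => if h : Fac W [l] then .word [l] h else .zero
  let G : Set (Alg W) :=
    {.zero, .word [] (fac_nil W)} ∪
      f '' (Set.Iio (2 * n + 2) ×ˢ Set.Iio (2 * n + 2) : Set (ℕ × ℕ))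
  have hG : G.Finite :=
    (Set.toFinite _).union (((Set.finite_Iio _).prod (Set.finite_Iio _)).image f)
  have hgen : Generates G := by
    intro T hGT hT
    rw [Set.eq_univ_iff_forall]
    have hw : ∀ L g, Alg.word (seg W g L) (fac_seg W g L) ∈ T := by
      intro L
      induction L with
      | zero => intro g; exact hGT (Or.inl (Or.inr rfl))
      | succ L ih =>
        intro g
        have hl : Alg.word [W (g + L)] (fac_single W (g + L)) ∈ T := by
          apply hGT
          refine Or.inr ⟨W (g + L), hWm _, ?_⟩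
          exact dif_pos (fac_single W (g + L))
        have hp := (hT _ (ih g) _ hl).2
        have he : Alg.word (seg W g L) (fac_seg W g L) *
            Alg.word [W (g + L)] (fac_single W (g + L)) =
            Alg.word (seg W g (L + 1)) (fac_seg W g (L + 1)) := by
          rw [Alg.mul_eq_word]
          exact ⟨_, _, _, _, rfl, rfl, (seg_add _ g L 1).symm⟩
        rwa [he] at hp
    intro x
    cases x with
    | zero => exact hGT (Or.inl (Or.inl rfl))
    | word w h =>
      obtain ⟨g, L, rfl⟩ := h
      exact hw L g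
  have hF : Finite (Alg W) := hlf _ ((heq _).2 hM) G hG hgen
  have hI : Infinite (Alg W) := by
    refine Infinite.of_injective
      (fun L : ℕ => Alg.word (seg W 0 L) (fac_seg W 0 L)) ?_
    intro L L' h
    have h2 := congrArg (fun x : Alg W => x.toList.length) h
    simpa [Alg.toList] using h2
  exact not_finite (Alg W)

end Pool.Agent.H88.Brandt
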