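import Pool.Agent.H88.Brandt.Red

/-!
# The main combinatorial theorem
-/

namespace Pool.Agent.H88.Brandt

section Main

variable {r : ℕ} {α : Type} (S : SelfSim r α)

open Classical in
/-- The colouring attached to a window and a letter. -/
noncomputable def col (lo hi t : ℕ) (w : α) (g : ℕ) : Bool := decide (Q S lo hi t w g)

variable {S}

theorem col_eq {lo hi t : ℕ} {w : α} {g g' : ℕ} (h : Q S lo hi t w g ↔ Q S lo hi t w g') :
    col S lo hi t w g = col S lo hi t w g' := by
  unfold col
  exact decide_eq_decide.2 h

theorem col_true {lo hi t : ℕ} {w : α} {g : ℕ} : col S lo hi t w g = true ↔ Q S lo hi t w g := by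
  classical
  simp [col]

variable {len : ℕ → ℕ} {φ : ℕ → ℕ → α} {j : ℕ} {U : Set (List ℕ)} {a : ℕ}

section Valid

variable {t : ℕ} {w : α}

theorem valid_hi (h1j : 1 ≤ j) (hj : j < r) (ht : t < r)
    (hm : ∀ x g, Occ len U a x g → Mat S.W len φ x g)
    (hok : ∀ x g, Occ len U a x g → Ok S len φ j x) :
    Valid len U a (col S j t t w) := by
  intro x g g' hg hg'
  have hr : 0 < r := by omega
  rcases Nat.eq_zero_or_pos (len x) with h0 | h0
  · right
    rw [h0]
    exact ⟨rfl, rfl⟩
  · have m1 := hm x g hg
    have m2 := hm x g' hg'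
    by_cases hs : Same S len φ j t x
    · right
      exact ⟨col_eq (same_iff hr (m1.off h0) hs), col_eq (same_iff hr (m2.off h0) hs)⟩
    · left
      have ok := hok x g hg
      exact ⟨col_eq (start_mat hr h0 m1 m2 ht hs),
        col_eq (end_cross hj ok h0 (m1.red h1j hj ok) (m2.red h1j hj ok) ht hs)⟩

theorem valid_lo (h1j : 1 ≤ j) (hj : j < r) (ht : t < r)
    (hm : ∀ x g, Occ len U a x g → Mat S.W len φ x g)
    (hok : ∀ x g, Occ len U a x g → Ok S len φ j x) :
    Valid len U a (col S t j t w) := by
  intro x g g' hg hg'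
  have hr : 0 < r := by omega
  rcases Nat.eq_zero_or_pos (len x) with h0 | h0
  · right
    rw [h0]
    exact ⟨rfl, rfl⟩
  · have m1 := hm x g hg
    have m2 := hm x g' hg'
    by_cases hs : Same S len φ t j x
    · right
      exact ⟨col_eq (same_iff hr (m1.off h0) hs), col_eq (same_iff hr (m2.off h0) hs)⟩
    · left
      have ok := hok x g hg
      exact ⟨col_eq (start_cross hj ok h0 (m1.red h1j hj ok) (m2.red h1j hj ok) ht hs),
        col_eq (end_mat hr h0 m1 m2 hs)⟩

end Valid

/-! ### Good and visible words -/

variable (S len φ j) in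
/-- All letters of the word start at the right offsets. -/
def GoodW : ℕ → List ℕ → Prop
  | _, [] => True
  | p, y :: v => (0 < len y → p % r = sx S φ y) ∧ GoodW (p + len y) v

variable (S len φ j) in
/-- All letters of the word are visible. -/
def VisW : ℕ → List ℕ → Prop
  | _, [] => True
  | p, y :: v => Vis S len φ j y p ∧ VisW (p + len y) v

theorem D_wl (hj : j < r) {p : ℕ} {v : List ℕ} (h : GoodW S len φ p v) :
    D r j (p + wl len v) = D r j p + wl (len' S len φ j) v := by
  induction v generalizing p with
  | nil => simp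
  | cons y v ih =>
    rw [wl_cons, wl_cons, ← Nat.add_assoc, ih h.2, D_add_len hj h.1, Nat.add_assoc]

theorem visW_of (hj : j < r) {p : ℕ} {v : List ℕ} (h : GoodW S len φ p v)
    (h' : Parse S.W (len' S len φ j) (ph' S φ j) (D r j p) v) : VisW S len φ j p v := by
  induction v generalizing p with
  | nil => trivial
  | cons y v ih =>
    refine ⟨⟨h.1, h'.1⟩, ih h.2 ?_⟩
    rw [D_add_len hj h.1]
    exact h'.2

theorem VisW.split {p : ℕ} {v' : List ℕ} {y : ℕ} {v'' : List ℕ}
    (h : VisW S len φ j p (v' ++ y :: v'')) :
    VisW S len φ j p v' ∧ Vis S len φ j y (p + wl len v') ∧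
      VisW S len φ j (p + wl len v' + len y) v'' := by
  induction v' generalizing p with
  | nil => exact ⟨trivial, h.1, h.2⟩
  | cons z v' ih =>
    obtain ⟨h1, h2, h3⟩ := ih h.2
    rw [wl_cons, ← Nat.add_assoc]
    exact ⟨⟨h.1, h1⟩, h2, h3⟩

theorem goodW_of_parse {p : ℕ} {v : List ℕ} (h : Parse S.W len φ p v) : GoodW S len φ p v := by
  induction v generalizing p with
  | nil => trivial
  | cons y v ih => exact ⟨fun h0 => h.1.off h0, ih h.2⟩

theorem visW_of_parse (h1j : 1 ≤ j) (hj : j < r) {p : ℕ} {v : List ℕ}
    (h : Parse S.W len φ p v) (hok : ∀ y ∈ v, Ok S len φ j y) : VisW S len φ j p v := by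
  induction v generalizing p with
  | nil => trivial
  | cons y v ih =>
    exact ⟨h.1.red h1j hj (hok y (by simp)), ih h.2 fun z hz => hok z (by simp [hz])⟩

theorem VisW.parse (hj : j < r) {p : ℕ} {v : List ℕ} (h : VisW S len φ j p v) :
    Parse S.W (len' S len φ j) (ph' S φ j) (D r j p) v := by
  induction v generalizing p with
  | nil => trivial
  | cons y v ih =>
    refine ⟨h.1.2, ?_⟩
    have := ih h.2
    rwa [D_add_len hj h.1.1] at this

/-! ### Occurrences -/

theorem occ_mat (hU : ∀ u ∈ U, Parse S.W len φ a u) {x g : ℕ} (h : Occ len U a x g) :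
    Mat S.W len φ x g := by
  obtain ⟨u', u'', hu, rfl⟩ := h
  exact (hU _ hu).mat

theorem occ_red (hj : j < r) (hU : ∀ u ∈ U, Parse S.W len φ a u) {x g : ℕ}
    (h : Occ len U a x g) : Occ (len' S len φ j) U (D r j a) x (D r j g) := by
  obtain ⟨u', u'', hu, rfl⟩ := h
  refine ⟨u', u'', hu, ?_⟩
  have hg := goodW_of_parse (hU _ hu)
  have : GoodW S len φ a u' := by
    clear hu
    generalize a = p at hg
    induction u' generalizing p with
    | nil => trivial
    | cons y u' ih => exact ⟨hg.1, ih _ hg.2⟩
  exact D_wl hj this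

/-! ### Offsets -/

/-- The colouring given by an offset. -/
def oc (r o g : ℕ) : Bool := decide (g % r = o)

theorem valid_oc (hU : ∀ u ∈ U, Parse S.W len φ a u) (o : ℕ) : Valid len U a (oc r o) := by
  intro x g g' hg hg'
  rcases Nat.eq_zero_or_pos (len x) with h0 | h0
  · right
    rw [h0]
    exact ⟨rfl, rfl⟩
  · left
    have h1 := (occ_mat hU hg).off h0
    have h2 := (occ_mat hU hg').off h0
    have h3 : g % r = g' % r := by rw [h1, h2]
    have h4 : (g + len x) % r = (g' + len x) % r := Nat.ModEq.add_right _ h3
    unfold oc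
    rw [h3, h4]
    exact ⟨rfl, rfl⟩

theorem good_of_acc (hU : ∀ u ∈ U, Parse S.W len φ a u) {p q : ℕ} {v : List ℕ}
    (h : ∀ o, Acc len U a (oc r o) (oc r o p) v (oc r o q)) :
    GoodW S len φ p v ∧ (p + wl len v) % r = q % r := by
  induction v generalizing p with
  | nil =>
    refine ⟨trivial, ?_⟩
    have := h (p % r)
    have h2 : oc r (p % r) p = oc r (p % r) q := this
    simp only [oc, decide_true] at h2
    exact (of_decide_eq_true h2.symm).symm
  | cons y v ih =>
    have hkey : 0 < len y → p % r = sx S φ y := by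
      intro h0
      obtain ⟨g, h1, h2, -⟩ := h (p % r)
      have h3 := (occ_mat hU h1).off h0
      have h4 : g % r = p % r := by
        simp only [oc, decide_true] at h2
        exact of_decide_eq_true h2
      rw [← h4, h3]
    have hstep : ∀ o, Acc len U a (oc r o) (oc r o (p + len y)) v (oc r o q) := by
      intro o
      obtain ⟨g, h1, h2, h3⟩ := h o
      have : oc r o (g + len y) = oc r o (p + len y) := by
        rcases Nat.eq_zero_or_pos (len y) with h0 | h0
        · rw [h0]
          exact h2
        · have h4 := (occ_mat hU h1).off h0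
          have h5 : g % r = p % r := by rw [h4, hkey h0]
          have h6 : (g + len y) % r = (p + len y) % r := Nat.ModEq.add_right _ h5
          unfold oc
          rw [h6]
      rwa [this] at h3
    obtain ⟨h1, h2⟩ := ih hstep
    refine ⟨⟨hkey, h1⟩, ?_⟩
    rwa [wl_cons, ← Nat.add_assoc]

/-! ### Tracking the state -/

section Track

variable {t : ℕ} {w : α}

theorem fwd (h1j : 1 ≤ j) (hj : j < r) (ht : t < r) (hU : ∀ u ∈ U, Parse S.W len φ a u)
    {v : List ℕ} {p : ℕ} {τ : Bool} (hv : VisW S len φ j p v) (hok : ∀ y ∈ v, Ok S len φ j y)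
    (h : Acc len U a (col S j t t w) (col S j t t w p) v τ) :
    τ = col S j t t w (p + wl len v) := by
  induction v generalizing p with
  | nil => exact h.symm
  | cons y v ih =>
    obtain ⟨g, h1, h2, h3⟩ := h
    have m1 := occ_mat hU h1
    have ok := hok y (by simp)
    have hk : col S j t t w (g + len y) = col S j t t w (p + len y) := by
      rcases Nat.eq_zero_or_pos (len y) with h0 | h0
      · rw [h0]
        exact h2
      · have v1 := m1.red h1j hj ok
        by_cases hs : Same S len φ j t y
        · rw [← col_eq (same_iff (w := w) (t := t) (by omega) (v1.1 h0) hs),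
            ← col_eq (same_iff (w := w) (t := t) (by omega) (hv.1.1 h0) hs)]
          exact h2
        · exact col_eq (end_cross hj ok h0 v1 hv.1 ht hs)
    rw [hk] at h3
    rw [wl_cons, ← Nat.add_assoc]
    exact ih hv.2 (fun z hz => hok z (by simp [hz])) h3

theorem bwd (h1j : 1 ≤ j) (hj : j < r) (ht : t < r) (hU : ∀ u ∈ U, Parse S.W len φ a u)
    {v : List ℕ} {p : ℕ} {σ : Bool} (hv : VisW S len φ j p v) (hok : ∀ y ∈ v, Ok S len φ j y)
    (h : Acc len U a (col S t j t w) σ v (col S t j t w (p + wl len v))) :
    σ = col S t j t w p := by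
  induction v generalizing p σ with
  | nil => exact h
  | cons y v ih =>
    obtain ⟨g, h1, h2, h3⟩ := h
    have m1 := occ_mat hU h1
    have ok := hok y (by simp)
    rw [wl_cons, ← Nat.add_assoc] at h3
    have h4 := ih hv.2 (fun z hz => hok z (by simp [hz])) h3
    rw [← h2]
    rcases Nat.eq_zero_or_pos (len y) with h0 | h0
    · rw [h0] at h4
      exact h4
    · have v1 := m1.red h1j hj ok
      by_cases hs : Same S len φ t j y
      · rw [col_eq (same_iff (w := w) (t := t) (by omega) (v1.1 h0) hs),
            col_eq (same_iff (w := w) (t := t) (by omega) (hv.1.1 h0) hs)]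
        exact h4
      · exact col_eq (start_cross hj ok h0 v1 hv.1 ht hs)

end Track

/-- In a visible word which can be read in every valid colouring, every letter is read
correctly. -/
theorem letter_eq (h1j : 1 ≤ j) (hj : j < r) (hU : ∀ u ∈ U, Parse S.W len φ a u)
    (hokU : ∀ x g, Occ len U a x g → Ok S len φ j x) {v' : List ℕ} {y : ℕ} {v'' : List ℕ}
    (hacc : ∀ c, Valid len U a c →
      Acc len U a c (c a) (v' ++ y :: v'') (c (a + wl len (v' ++ y :: v''))))
    (hv : VisW S len φ j a (v' ++ y :: v'')) (hok : ∀ z ∈ v' ++ y :: v'', Ok S len φ j z) :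
    Mat S.W len φ y (a + wl len v') := by
  intro i hi
  have h0 : 0 < len y := by omega
  have hr : 0 < r := by omega
  have hm : ∀ x g, Occ len U a x g → Mat S.W len φ x g := fun x g h => occ_mat hU h
  have oky : Ok S len φ j y := hok y (by simp)
  obtain ⟨o1, o2⟩ := oky h0
  obtain ⟨v1, v2, v3⟩ := hv.split
  have hok1 : ∀ z ∈ v', Ok S len φ j z := fun z hz => hok z (by simp [hz])
  have hok3 : ∀ z ∈ v'', Ok S len φ j z := fun z hz => hok z (by simp [hz])
  obtain ⟨e1, e2, e3, e4, e5⟩ := ends (len := len) hr (v2.1 h0)
  have ht : (sx S φ y + i) % r < r := Nat.mod_lt _ hr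
  have hki : sx S φ y + i = (sx S φ y + i) / r * r + (sx S φ y + i) % r := split' _ r
  generalize (sx S φ y + i) % r = t at ht hki
  generalize (sx S φ y + i) / r = k at hki
  have hall : ∀ q, q % r = sx S φ y → q + i = (q / r + k) * r + t := by
    intro q hq
    have := split' q r
    rw [hq] at this
    rw [Nat.add_mul]
    omega
  have hp := hall _ (v2.1 h0)
  rw [hp]
  by_cases hc : sx S φ y < k * r + j ∧ k * r + j < sx S φ y + len y
  · obtain ⟨τ, -, h2⟩ := acc_append (hacc (fun _ => true) (fun _ _ _ _ _ => Or.inl ⟨rfl, rfl⟩))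
    obtain ⟨g, h3, -, -⟩ := h2
    have m := hm _ _ h3
    have hW := v2.cross hj (m.red h1j hj oky) hc.1 hc.2
    rw [m i hi, hall g (m.off h0), S.W_sub _ _ ht, S.W_sub _ _ ht, hW]
  · by_cases htj : j ≤ t
    · have hk0 : k = 0 := by
        rcases Nat.eq_zero_or_pos k with hk | hk
        · exact hk
        · exfalso
          have : r ≤ k * r := Nat.le_mul_of_pos_left _ hk
          exact hc ⟨by omega, by omega⟩
      subst hk0
      rw [Nat.zero_mul, Nat.zero_add] at hki hc
      obtain ⟨τ, h1, h2⟩ := acc_append (hacc _ (valid_hi (w := φ y i) h1j hj ht hm hokU))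
      have h3 := fwd h1j hj ht hU v1 hok1 h1
      obtain ⟨g, h4, h5, -⟩ := h2
      have m := hm _ _ h4
      have hg : Q S j t t (φ y i) g := by
        refine ⟨by rw [m.off h0]; omega, by rw [m.off h0]; omega, ?_⟩
        rw [m i hi, hall g (m.off h0), Nat.add_zero]
      rw [col_true.2 hg, h3] at h5
      have h6 := (col_true.1 h5.symm).2.2
      rw [Nat.add_zero, h6]
    · have hE : (sx S φ y + len y) / r = k ∧ t < (sx S φ y + len y) % r ∧
          (sx S φ y + len y) % r ≤ j := by
        have h1 : sx S φ y + len y = k * r + (sx S φ y + len y - k * r) := by omega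
        have h2 : sx S φ y + len y - k * r < r := by omega
        rw [h1, mul_add_div' _ h2, mul_add_mod' _ h2]
        exact ⟨rfl, by omega, by omega⟩
      obtain ⟨E1, E2, E3⟩ := hE
      obtain ⟨τ, -, h2⟩ := acc_append (hacc _ (valid_lo (w := φ y i) h1j hj ht hm hokU))
      obtain ⟨g, h4, -, h5⟩ := h2
      rw [wl_append, wl_cons, ← Nat.add_assoc, ← Nat.add_assoc] at h5
      have h6 := bwd h1j hj ht hU v3 hok3 h5
      have m := hm _ _ h4
      obtain ⟨-, -, f3, -, -⟩ := ends (len := len) hr (m.off h0)
      have hg : Q S t j t (φ y i) (g + len y) := by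
        rw [f3, Q_iff e5]
        refine ⟨E2, E3, ?_⟩
        rw [m i hi, hall g (m.off h0), E1]
      rw [col_true.2 hg] at h6
      have h7 := col_true.1 h6.symm
      rw [e3, Q_iff e5, E1] at h7
      exact h7.2.2.symm

/-- The choice of the cut. -/
theorem exists_cut (V : Finset ℕ) (hV : 2 * V.card + 2 ≤ r) (S : SelfSim r α) (len : ℕ → ℕ)
    (φ : ℕ → ℕ → α) : ∃ j, 1 ≤ j ∧ j < r ∧ ∀ x ∈ V, Ok S len φ j x := by
  classical
  have h1 : ((V.image (sx S φ)) ∪ (V.image fun x => (sx S φ x + len x) % r)).card <
      (Finset.Ico 1 r).card := by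
    rw [Nat.card_Ico]
    have h2 := Finset.card_union_le (V.image (sx S φ)) (V.image fun x => (sx S φ x + len x) % r)
    have h3 : (V.image (sx S φ)).card ≤ V.card := Finset.card_image_le
    have h4 : (V.image fun x => (sx S φ x + len x) % r).card ≤ V.card := Finset.card_image_le
    omega
  obtain ⟨j, hj, hj'⟩ := Finset.exists_mem_notMem_of_card_lt_card h1
  rw [Finset.mem_Ico] at hj
  rw [Finset.mem_union, not_or, Finset.mem_image, Finset.mem_image] at hj'
  refine ⟨j, hj.1, hj.2, fun x hx _ => ⟨fun h => hj'.1 ⟨x, hx, h⟩, fun h => hj'.2 ⟨x, hx, h⟩⟩⟩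

/-- **The main combinatorial theorem.**  If all words of `U` can be read along the self-similar
word `W` from `a` to `a + L`, and the word `v` can be read from `a` to `a + L` in all valid
colourings, then `v` is read along `W` from `a` to `a + L`. -/
theorem main (S : SelfSim r α) (V : Finset ℕ) (hV : 2 * V.card + 2 ≤ r)
    (U : Set (List ℕ)) (hUV : ∀ u ∈ U, ∀ x ∈ u, x ∈ V) (v : List ℕ) :
    ∀ (G : ℕ) (len : ℕ → ℕ) (φ : ℕ → ℕ → α) (a L : ℕ), a + L = G →
      (∀ u ∈ U, Parse S.W len φ a u ∧ wl len u = L) →
      (∀ c, Valid len U a c → Acc len U a c (c a) v (c (a + L))) →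
      Parse S.W len φ a v ∧ wl len v = L := by
  intro G
  induction G using Nat.strong_induction_on with
  | _ G IH =>
    intro len φ a L hG hU hacc
    have hUp : ∀ u ∈ U, Parse S.W len φ a u := fun u hu => (hU u hu).1
    have hoccV : ∀ x g, Occ len U a x g → x ∈ V := by
      rintro x g ⟨u', u'', hu, -⟩
      exact hUV _ hu x (by simp)
    have hocc : ∀ y ∈ v, ∃ g, Occ len U a y g := by
      have h := hacc (fun _ => true) (fun _ _ _ _ _ => Or.inl ⟨rfl, rfl⟩)
      have key : ∀ (w : List ℕ) (s s' : Bool), Acc len U a (fun _ => true) s w s' →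
          ∀ y ∈ w, ∃ g, Occ len U a y g := by
        intro w
        induction w with
        | nil => intro _ _ _ y hy; simp at hy
        | cons z w ih =>
          rintro s s' ⟨g, h1, -, h3⟩ y hy
          rcases List.mem_cons.1 hy with rfl | hy
          · exact ⟨g, h1⟩
          · exact ih _ _ h3 y hy
      exact key v _ _ h
    rcases Nat.eq_zero_or_pos L with hL | hL
    · subst hL
      have hz : ∀ y ∈ v, len y = 0 := by
        intro y hy
        obtain ⟨g, u', u'', hu, -⟩ := hocc y hy
        have := (hU _ hu).2
        rw [wl_append, wl_cons] at this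
        omega
      constructor
      · apply parse_of
        intro v' y v'' e i hi
        rw [hz y (by rw [e]; simp)] at hi
        omega
      · clear hacc hocc IH
        induction v with
        | nil => rfl
        | cons y v ih =>
          rw [wl_cons, hz y (by simp), ih fun z hz' => hz z (by simp [hz'])]
    · obtain ⟨j, h1j, hj, hok⟩ := exists_cut V hV S len φ
      have hokU : ∀ x g, Occ len U a x g → Ok S len φ j x := fun x g h => hok x (hoccV x g h)
      have hokv : ∀ y ∈ v, Ok S len φ j y := fun y hy => by
        obtain ⟨g, hg⟩ := hocc y hy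
        exact hokU y g hg
      -- the reduced instance
      have hDL : D r j a + (D r j (a + L) - D r j a) = D r j (a + L) := by
        have := D_mono (j := j) hj (show a ≤ a + L by omega)
        omega
      have hU' : ∀ u ∈ U, Parse S.W (len' S len φ j) (ph' S φ j) (D r j a) u ∧
          wl (len' S len φ j) u = D r j (a + L) - D r j a := by
        intro u hu
        obtain ⟨hu1, hu2⟩ := hU u hu
        have hv := visW_of_parse h1j hj hu1 fun y hy => hok y (hUV u hu y hy)
        refine ⟨hv.parse hj, ?_⟩
        have := D_wl hj (goodW_of_parse hu1)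
        rw [hu2] at this
        omega
      have hacc' : ∀ c, Valid (len' S len φ j) U (D r j a) c →
          Acc (len' S len φ j) U (D r j a) c (c (D r j a)) v
            (c (D r j a + (D r j (a + L) - D r j a))) := by
        intro c hc
        rw [hDL]
        have hlen : ∀ x g, Occ len U a x g →
            D r j (g + len x) = D r j g + len' S len φ j x :=
          fun x g h => D_add_len hj fun h0 => (occ_mat hUp h).off h0
        have hval : Valid len U a fun g => c (D r j g) := by
          intro x g g' hg hg'
          have := hc x _ _ (occ_red hj hUp hg) (occ_red hj hUp hg')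
          rw [← hlen x g hg, ← hlen x g' hg'] at this
          exact this
        have h := hacc _ hval
        have key : ∀ (w : List ℕ) (s s' : Bool), Acc len U a (fun g => c (D r j g)) s w s' →
            Acc (len' S len φ j) U (D r j a) c s w s' := by
          intro w
          induction w with
          | nil => intro _ _ h; exact h
          | cons z w ih =>
            rintro s s' ⟨g, h1, h2, h3⟩
            refine ⟨D r j g, occ_red hj hUp h1, h2, ?_⟩
            rw [← hlen z g h1]
            exact ih _ _ h3
        exact key v _ _ h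
      obtain ⟨hp', hl'⟩ := IH _ (by
        rw [← hG, hDL]
        exact D_lt h1j hj (by omega)) _ _ _ _ rfl hU' hacc'
      -- the offsets
      obtain ⟨hgood, hmod⟩ := good_of_acc hUp fun o => hacc _ (valid_oc hUp o)
      have hlen : wl len v = L := by
        have h1 := D_wl hj hgood
        rw [hl', hDL] at h1
        have := D_inj hj h1 hmod
        omega
      refine ⟨?_, hlen⟩
      have hvis := visW_of hj hgood hp'
      apply parse_of
      intro v' y v'' e
      rw [e] at hvis hokv
      apply letter_eq h1j hj hUp hokU _ hvis hokv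
      intro c hc
      have := hacc c hc
      rw [← hlen, e] at this
      exact this

end Main

end Pool.Agent.H88.Brandt
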