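import Pool.Agent.H88.Brandt.Core

/-!
# The reduction of a reading along the self-similar word
-/

namespace Pool.Agent.H88.Brandt

section Red

variable {r : ℕ} {α : Type} (S : SelfSim r α) (len : ℕ → ℕ) (φ : ℕ → ℕ → α) (j : ℕ)

/-- The offset at which the nonempty word of the variable `x` starts. -/
def sx (x : ℕ) : ℕ := S.off (φ x 0)

/-- The new lengths. -/
def len' (x : ℕ) : ℕ := D r j (sx S φ x + len x) - D r j (sx S φ x)

/-- The new words. -/
def ph' (x i : ℕ) : α :=
  S.dec (j - 1) (φ x ((D r j (sx S φ x) + i) * r + (j - 1) - sx S φ x))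
    (φ x ((D r j (sx S φ x) + i) * r + j - sx S φ x))

/-- The cut `j` avoids the two ends of the word of `x`. -/
def Ok (x : ℕ) : Prop := 0 < len x → sx S φ x ≠ j ∧ (sx S φ x + len x) % r ≠ j

/-- The position `p` has the right offset for `x`, and the reduced word of `x` is read there. -/
def Vis (x p : ℕ) : Prop :=
  (0 < len x → p % r = sx S φ x) ∧ Mat S.W (len' S len φ j) (ph' S φ j) x (D r j p)

variable {S len φ j}

theorem len'_eq_zero {x : ℕ} (h : len x = 0) : len' S len φ j x = 0 := by
  simp [len', h]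

theorem Mat.off {x p : ℕ} (h : Mat S.W len φ x p) (h0 : 0 < len x) : p % r = sx S φ x := by
  rw [sx, h 0 h0, S.off_W, Nat.add_zero]

theorem D_add_len (hj : j < r) {x p : ℕ} (h : 0 < len x → p % r = sx S φ x) :
    D r j (p + len x) = D r j p + len' S len φ j x := by
  rcases Nat.eq_zero_or_pos (len x) with h0 | h0
  · simp [h0, len'_eq_zero h0]
  · have hs := h h0
    have e1 : D r j (p + len x) = p / r + D r j (sx S φ x + len x) := by
      conv_lhs => rw [split' p r, hs, Nat.add_assoc]
      exact D_mul_add hj _ _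
    have e2 : D r j p = p / r + D r j (sx S φ x) := by
      conv_lhs => rw [split' p r, hs]
      exact D_mul_add hj _ _
    have e3 := D_mono (j := j) hj (show sx S φ x ≤ sx S φ x + len x by omega)
    rw [e1, e2, len']
    omega

theorem Mat.red (h1 : 1 ≤ j) (hj : j < r) {x p : ℕ} (h : Mat S.W len φ x p)
    (hok : Ok S len φ j x) : Vis S len φ j x p := by
  refine ⟨fun h0 => h.off h0, ?_⟩
  rcases Nat.eq_zero_or_pos (len x) with h0 | h0
  · intro i hi
    rw [len'_eq_zero h0] at hi
    omega
  · intro i hi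
    have hs := h.off h0
    obtain ⟨hsj, -⟩ := hok h0
    have hr : 0 < r := by omega
    have hsr : sx S φ x < r := by rw [← hs]; exact Nat.mod_lt _ hr
    have e2 : D r j p = p / r + D r j (sx S φ x) := by
      conv_lhs => rw [split' p r, hs]
      exact D_mul_add hj _ _
    rw [len'] at hi
    have hk1 : (D r j (sx S φ x) + i) * r + j < sx S φ x + len x := (lt_D hj).1 (by omega)
    have hk2 : ¬ (D r j (sx S φ x) + i) * r + j < sx S φ x := by
      intro hc
      have := (lt_D hj).2 hc
      omega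
    have hk3 : (D r j (sx S φ x) + i) * r + j ≠ sx S φ x := by
      intro hc
      apply hsj
      rcases Nat.eq_zero_or_pos (D r j (sx S φ x) + i) with hz | hz
      · rw [hz, Nat.zero_mul, Nat.zero_add] at hc
        exact hc.symm
      · have : r ≤ (D r j (sx S φ x) + i) * r := Nat.le_mul_of_pos_left _ hz
        omega
    have hp : p = p / r * r + sx S φ x := by
      conv_lhs => rw [split' p r, hs]
    have i1 := h ((D r j (sx S φ x) + i) * r + (j - 1) - sx S φ x) (by omega)
    have i2 := h ((D r j (sx S φ x) + i) * r + j - sx S φ x) (by omega)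
    have e3 : p + ((D r j (sx S φ x) + i) * r + (j - 1) - sx S φ x) =
        (D r j p + i) * r + (j - 1) := by
      rw [e2, Nat.add_assoc (p / r), Nat.add_mul (p / r)]
      omega
    have e4 : p + ((D r j (sx S φ x) + i) * r + j - sx S φ x) =
        (D r j p + i) * r + ((j - 1) + 1) := by
      rw [e2, Nat.add_assoc (p / r), Nat.add_mul (p / r)]
      omega
    rw [ph', i1, i2, e3, e4]
    exact S.dec_W _ _ (by omega)

/-- A cut inside the word of `x` makes the letter above visible. -/
theorem Vis.cross (hj : j < r) {x p g k : ℕ} (hp : Vis S len φ j x p) (hg : Vis S len φ j x g)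
    (h1 : sx S φ x < k * r + j) (h2 : k * r + j < sx S φ x + len x) :
    S.W (p / r + k) = S.W (g / r + k) := by
  have h0 : 0 < len x := by omega
  have hk1 : k < D r j (sx S φ x + len x) := (lt_D hj).2 h2
  have hk2 : ¬ k < D r j (sx S φ x) := by
    intro hc
    have := (lt_D hj).1 hc
    omega
  have e2 : ∀ q, Vis S len φ j x q → D r j q = q / r + D r j (sx S φ x) := by
    intro q hq
    conv_lhs => rw [split' q r, hq.1 h0]
    exact D_mul_add hj _ _
  have i1 := hp.2 (k - D r j (sx S φ x)) (by rw [len']; omega)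
  have i2 := hg.2 (k - D r j (sx S φ x)) (by rw [len']; omega)
  rw [e2 p hp] at i1
  rw [e2 g hg] at i2
  rw [i1] at i2
  have e3 : ∀ n, n + D r j (sx S φ x) + (k - D r j (sx S φ x)) = n + k := by intro n; omega
  rwa [e3, e3] at i2

/-! ### Colourings -/

variable (S)

/-- The set underlying the colourings. -/
def Q (lo hi t : ℕ) (w : α) (g : ℕ) : Prop := lo < g % r ∧ g % r ≤ hi ∧ S.W (g / r * r + t) = w

variable {S}

theorem Q_iff {lo hi t : ℕ} {w : α} {k s : ℕ} (hs : s < r) :
    Q S lo hi t w (k * r + s) ↔ lo < s ∧ s ≤ hi ∧ S.W (k * r + t) = w := by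
  rw [Q, mul_add_mod' k hs, mul_add_div' k hs]

section Ends

variable {lo hi t : ℕ} {w : α} {x p g : ℕ}

/-- The word of `x` stays in one block, in the critical window. -/
def Same (S : SelfSim r α) (len : ℕ → ℕ) (φ : ℕ → ℕ → α) (lo hi x : ℕ) : Prop :=
  (sx S φ x + len x) / r = 0 ∧ lo < sx S φ x ∧ (sx S φ x + len x) % r ≤ hi

theorem ends (hr : 0 < r) (hp : p % r = sx S φ x) :
    p = p / r * r + sx S φ x ∧ sx S φ x < r ∧
    p + len x = (p / r + (sx S φ x + len x) / r) * r + (sx S φ x + len x) % r ∧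
    sx S φ x + len x = (sx S φ x + len x) / r * r + (sx S φ x + len x) % r ∧
    (sx S φ x + len x) % r < r := by
  have h1 : p = p / r * r + sx S φ x := by conv_lhs => rw [split' p r, hp]
  have h2 := split' (sx S φ x + len x) r
  refine ⟨h1, by rw [← hp]; exact Nat.mod_lt _ hr, ?_, h2, Nat.mod_lt _ hr⟩
  rw [Nat.add_mul, Nat.add_assoc, ← h2, ← Nat.add_assoc, ← h1]

theorem same_iff (hr : 0 < r) (hp : p % r = sx S φ x) (h : Same S len φ lo hi x) :
    Q S lo hi t w p ↔ Q S lo hi t w (p + len x) := by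
  obtain ⟨e1, e2, e3, e4, e5⟩ := ends (len := len) hr hp
  obtain ⟨h1, h2, h3⟩ := h
  rw [h1, Nat.zero_mul, Nat.zero_add] at e4
  rw [e1, ← e1, e3, e1, Q_iff e2, Q_iff e5, h1, Nat.add_zero]
  rw [e1] at e3
  constructor
  · rintro ⟨-, -, h⟩
    exact ⟨by omega, h3, by rwa [mul_add_div' _ e2]⟩
  · rintro ⟨-, -, h⟩
    exact ⟨h2, by omega, by rwa [mul_add_div' _ e2] at h⟩

theorem start_cross (hj : j < r) (hok : Ok S len φ j x) (h0 : 0 < len x)
    (hp : Vis S len φ j x p) (hg : Vis S len φ j x g) (ht : t < r)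
    (hns : ¬ Same S len φ t j x) : Q S t j t w p ↔ Q S t j t w g := by
  obtain ⟨e1, e2, e3, e4, e5⟩ := ends (len := len) (by omega) (hp.1 h0)
  obtain ⟨f1, f2, f3, f4, f5⟩ := ends (len := len) (by omega) (hg.1 h0)
  obtain ⟨o1, o2⟩ := hok h0
  rw [e1, Q_iff e2, f1, Q_iff f2]
  by_cases hs : t < sx S φ x ∧ sx S φ x ≤ j
  · have hE : 0 < (sx S φ x + len x) / r ∨ j < (sx S φ x + len x) % r := by
      by_contra hc
      push Not at hc
      exact hns ⟨Nat.le_zero.1 hc.1, hs.1, hc.2⟩
    have hlt : j < sx S φ x + len x := by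
      rcases hE with hE | hE
      · have : r ≤ (sx S φ x + len x) / r * r := Nat.le_mul_of_pos_left _ hE
        omega
      · omega
    have hW := hp.cross (k := 0) hj hg (by omega) (by omega)
    rw [Nat.add_zero, Nat.add_zero] at hW
    rw [S.W_sub _ _ ht, S.W_sub _ _ ht, hW]
  · tauto

theorem end_cross (hj : j < r) (hok : Ok S len φ j x) (h0 : 0 < len x)
    (hp : Vis S len φ j x p) (hg : Vis S len φ j x g) (ht : t < r)
    (hns : ¬ Same S len φ j t x) : Q S j t t w (p + len x) ↔ Q S j t t w (g + len x) := by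
  obtain ⟨e1, e2, e3, e4, e5⟩ := ends (len := len) (by omega) (hp.1 h0)
  obtain ⟨f1, f2, f3, f4, f5⟩ := ends (len := len) (by omega) (hg.1 h0)
  obtain ⟨o1, o2⟩ := hok h0
  rw [e3, Q_iff e5, f3, Q_iff f5]
  by_cases hs : j < (sx S φ x + len x) % r ∧ (sx S φ x + len x) % r ≤ t
  · have hE : sx S φ x < (sx S φ x + len x) / r * r + j := by
      rcases Nat.eq_zero_or_pos ((sx S φ x + len x) / r) with hE | hE
      · have : sx S φ x ≤ j := by
          by_contra hc
          exact hns ⟨hE, by omega, hs.2⟩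
        omega
      · have : r ≤ (sx S φ x + len x) / r * r := Nat.le_mul_of_pos_left _ hE
        omega
    have hW := hp.cross (k := (sx S φ x + len x) / r) hj hg hE (by omega)
    rw [S.W_sub _ _ ht, S.W_sub _ _ ht, hW]
  · tauto

theorem start_mat (hr : 0 < r) (h0 : 0 < len x)
    (hp : Mat S.W len φ x p) (hg : Mat S.W len φ x g) (ht : t < r)
    (hns : ¬ Same S len φ j t x) : Q S j t t w p ↔ Q S j t t w g := by
  obtain ⟨e1, e2, e3, e4, e5⟩ := ends (len := len) (by omega) (hp.off h0)
  obtain ⟨f1, f2, f3, f4, f5⟩ := ends (len := len) (by omega) (hg.off h0)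
  rw [e1, Q_iff e2, f1, Q_iff f2]
  by_cases hs : j < sx S φ x ∧ sx S φ x ≤ t
  · have hE : 0 < (sx S φ x + len x) / r ∨ t < (sx S φ x + len x) % r := by
      by_contra hc
      push Not at hc
      exact hns ⟨Nat.le_zero.1 hc.1, hs.1, hc.2⟩
    have hlt : t < sx S φ x + len x := by
      rcases hE with hE | hE
      · have : r ≤ (sx S φ x + len x) / r * r := Nat.le_mul_of_pos_left _ hE
        omega
      · omega
    have i1 := hp (t - sx S φ x) (by omega)
    have i2 := hg (t - sx S φ x) (by omega)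
    rw [i1] at i2
    have e6 : p + (t - sx S φ x) = p / r * r + t := by omega
    have f6 : g + (t - sx S φ x) = g / r * r + t := by omega
    rw [e6, f6] at i2
    rw [i2]
  · tauto

theorem end_mat (hr : 0 < r) (h0 : 0 < len x)
    (hp : Mat S.W len φ x p) (hg : Mat S.W len φ x g)
    (hns : ¬ Same S len φ t j x) : Q S t j t w (p + len x) ↔ Q S t j t w (g + len x) := by
  obtain ⟨e1, e2, e3, e4, e5⟩ := ends (len := len) (by omega) (hp.off h0)
  obtain ⟨f1, f2, f3, f4, f5⟩ := ends (len := len) (by omega) (hg.off h0)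
  rw [e3, Q_iff e5, f3, Q_iff f5]
  by_cases hs : t < (sx S φ x + len x) % r ∧ (sx S φ x + len x) % r ≤ j
  · have hE : sx S φ x ≤ (sx S φ x + len x) / r * r + t := by
      rcases Nat.eq_zero_or_pos ((sx S φ x + len x) / r) with hE | hE
      · have : sx S φ x ≤ t := by
          by_contra hc
          exact hns ⟨hE, by omega, hs.2⟩
        omega
      · have : r ≤ (sx S φ x + len x) / r * r := Nat.le_mul_of_pos_left _ hE
        omega
    have i1 := hp ((sx S φ x + len x) / r * r + t - sx S φ x) (by omega)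
    have i2 := hg ((sx S φ x + len x) / r * r + t - sx S φ x) (by omega)
    rw [i1] at i2
    have e6 : p + ((sx S φ x + len x) / r * r + t - sx S φ x) =
        (p / r + (sx S φ x + len x) / r) * r + t := by
      rw [Nat.add_mul]
      omega
    have f6 : g + ((sx S φ x + len x) / r * r + t - sx S φ x) =
        (g / r + (sx S φ x + len x) / r) * r + t := by
      rw [Nat.add_mul]
      omega
    rw [e6, f6] at i2
    rw [i2]
  · tauto

end Ends

end Red

end Pool.Agent.H88.Brandt
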