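import Pool.Agent.H88.Brandt.Core

/-!
# A concrete self-similar word
-/

namespace Pool.Agent.H88.Brandt

/-- The second component of the letter at `p`, for the block length `m + 2`. -/
def vl (m p : ℕ) : ℕ :=
  if h : (p % (m + 2)) % 2 = 0 then (p / (m + 2)) % (m + 2) else vl m (p / (m + 2))
termination_by p
decreasing_by
  have hp : p ≠ 0 := by
    rintro rfl
    simp at h
  exact Nat.div_lt_self (Nat.pos_of_ne_zero hp) (by omega)

theorem vl_even {m k t : ℕ} (ht : t < m + 2) (h : t % 2 = 0) :
    vl m (k * (m + 2) + t) = k % (m + 2) := by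
  rw [vl, mul_add_mod' k ht, mul_add_div' k ht, dif_pos h]

theorem vl_odd {m k t : ℕ} (ht : t < m + 2) (h : t % 2 ≠ 0) :
    vl m (k * (m + 2) + t) = vl m k := by
  rw [vl, mul_add_mod' k ht, mul_add_div' k ht, dif_neg h]

theorem vl_lt (m p : ℕ) : vl m p < m + 2 := by
  induction p using Nat.strong_induction_on with
  | _ p ih =>
    rw [vl]
    split
    · exact Nat.mod_lt _ (by omega)
    · rename_i h
      apply ih
      have hp : p ≠ 0 := by
        rintro rfl
        simp at h
      exact Nat.div_lt_self (Nat.pos_of_ne_zero hp) (by omega)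

/-- The self-similar word with block length `m + 2`: the letter at `p` is the pair
`(p % (m + 2), vl m p)`. -/
def ssw (m : ℕ) : SelfSim (m + 2) (ℕ × ℕ) where
  W p := (p % (m + 2), vl m p)
  off := Prod.fst
  sub t w := (t, if t % 2 = 0 then w.1 else w.2)
  dec j p q := if j % 2 = 0 then (p.2, q.2) else (q.2, p.2)
  off_W _ := rfl
  W_sub k t ht := by
    rw [mul_add_mod' k ht]
    split
    · rename_i h
      rw [vl_even ht h]
    · rename_i h
      rw [vl_odd ht h]
  dec_W k j hj := by
    split
    · rename_i h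
      rw [vl_even (by omega) h, vl_odd hj (by omega)]
    · rename_i h
      rw [vl_odd (by omega) h, vl_even hj (by omega)]

theorem ssw_mem (m p : ℕ) :
    (ssw m).W p ∈ (Set.Iio (m + 2) ×ˢ Set.Iio (m + 2) : Set (ℕ × ℕ)) :=
  ⟨Nat.mod_lt _ (by omega), vl_lt m p⟩

end Pool.Agent.H88.Brandt
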