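import Pool.Agent.H88.Brandt.Defs
import Pool.Agent.H88.Brandt.Main
import Pool.Agent.H88.Brandt.Word

/-!
# Identities of the Brandt monoid semiring
-/

namespace Pool.Agent.H88.Brandt

/-! ### The words of a term -/

/-- The words of a term (the monomials obtained by expanding it). -/
def Term.wd : Term → Set (List ℕ)
  | .var i => {[i]}
  | .add s t => s.wd ∪ t.wd
  | .mul s t => {w | ∃ u ∈ s.wd, ∃ v ∈ t.wd, w = u ++ v}

/-- The variables of a term. -/
def Term.vars : Term → Finset ℕ
  | .var i => {i}
  | .add s t => s.vars ∪ t.vars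
  | .mul s t => s.vars ∪ t.vars

theorem Term.wd_nonempty (t : Term) : t.wd.Nonempty := by
  induction t with
  | var i => exact ⟨[i], rfl⟩
  | add s t hs ht => exact hs.mono Set.subset_union_left
  | mul s t hs ht =>
    obtain ⟨u, hu⟩ := hs
    obtain ⟨v, hv⟩ := ht
    exact ⟨u ++ v, u, hu, v, hv, rfl⟩

theorem Term.wd_vars (t : Term) : ∀ u ∈ t.wd, ∀ x ∈ u, x ∈ t.vars := by
  induction t with
  | var i =>
    intro u hu x hx
    rw [Term.wd, Set.mem_singleton_iff] at hu
    subst hu
    simpa [Term.vars] using hx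
  | add s t hs ht =>
    rintro u (hu | hu) x hx
    · exact Finset.mem_union_left _ (hs u hu x hx)
    · exact Finset.mem_union_right _ (ht u hu x hx)
  | mul s t hs ht =>
    rintro w ⟨u, hu, v, hv, rfl⟩ x hx
    rcases List.mem_append.1 hx with hx | hx
    · exact Finset.mem_union_left _ (hs u hu x hx)
    · exact Finset.mem_union_right _ (ht v hv x hx)

/-! ### Entries of the elements of the Brandt monoid -/

/-- The entries of the matrices (`false` is the first index, `true` is the second one). -/
def entry : B21 → Bool → Bool → Bool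
  | .one, i, j => i == j
  | .a, i, j => !i && j
  | .b, i, j => i && !j
  | .ab, i, j => !i && !j
  | .ba, i, j => i && j
  | .zero, _, _ => false

theorem entry_mul (x y : B21) (i j : Bool) :
    entry (x * y) i j = true ↔ ∃ k, entry x i k = true ∧ entry y k j = true := by
  cases x <;> cases y <;> cases i <;> cases j <;> decide

theorem entry_add (x y : B21) (i j : Bool) :
    entry (x + y) i j = true ↔ entry x i j = true ∧ entry y i j = true := by
  cases x <;> cases y <;> cases i <;> cases j <;> decide

theorem entry_right (x : B21) (i j j' : Bool) (h : entry x i j = true)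
    (h' : entry x i j' = true) : j = j' := by
  revert h h'
  cases x <;> cases i <;> cases j <;> cases j' <;> decide

theorem entry_left (x : B21) (i i' j : Bool) (h : entry x i j = true)
    (h' : entry x i' j = true) : i = i' := by
  revert h h'
  cases x <;> cases i <;> cases j <;> cases i' <;> decide

theorem entry_inj (x y : B21) (h : ∀ i j, entry x i j = entry y i j) : x = y := by
  have h1 := h false false
  have h2 := h false true
  have h3 := h true false
  have h4 := h true true
  revert h1 h2 h3 h4
  cases x <;> cases y <;> decide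

theorem exists_entry (R : Bool → Bool → Prop)
    (h : ∀ i j i' j', R i j → R i' j' → (i = i' ∧ j = j') ∨ (i = j ∧ i' = j')) :
    ∃ x : B21, ∀ i j, entry x i j = true ↔ R i j := by
  by_cases h1 : R false false
  · have h2 : ¬ R false true := fun hc => by
      rcases h _ _ _ _ h1 hc with h | h <;> simp at h
    have h3 : ¬ R true false := fun hc => by
      rcases h _ _ _ _ h1 hc with h | h <;> simp at h
    by_cases h4 : R true true
    · refine ⟨.one, fun i j => ?_⟩
      cases i <;> cases j <;> simp [entry, h1, h2, h3, h4]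
    · refine ⟨.ab, fun i j => ?_⟩
      cases i <;> cases j <;> simp [entry, h1, h2, h3, h4]
  · by_cases h4 : R true true
    · have h2 : ¬ R false true := fun hc => by
        rcases h _ _ _ _ h4 hc with h | h <;> simp at h
      have h3 : ¬ R true false := fun hc => by
        rcases h _ _ _ _ h4 hc with h | h <;> simp at h
      refine ⟨.ba, fun i j => ?_⟩
      cases i <;> cases j <;> simp [entry, h1, h2, h3, h4]
    · by_cases h2 : R false true
      · have h3 : ¬ R true false := fun hc => by
          rcases h _ _ _ _ h2 hc with h | h <;> simp at h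
        refine ⟨.a, fun i j => ?_⟩
        cases i <;> cases j <;> simp [entry, h1, h2, h3, h4]
      · by_cases h3 : R true false
        · refine ⟨.b, fun i j => ?_⟩
          cases i <;> cases j <;> simp [entry, h1, h2, h3, h4]
        · refine ⟨.zero, fun i j => ?_⟩
          cases i <;> cases j <;> simp [entry, h1, h2, h3, h4]

theorem isAiSemiring_B21 : IsAiSemiring B21 where
  add_assoc x y z := by cases x <;> cases y <;> cases z <;> rfl
  add_comm x y := by cases x <;> cases y <;> rfl
  add_idem x := by cases x <;> rfl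
  mul_assoc x y z := by cases x <;> cases y <;> cases z <;> rfl
  mul_add x y z := by cases x <;> cases y <;> cases z <;> rfl
  add_mul x y z := by cases x <;> cases y <;> cases z <;> rfl

/-! ### The value of a term -/

/-- The entries of the value of a word. -/
def relW (θ : ℕ → B21) : List ℕ → Bool → Bool → Prop
  | [], i, j => i = j
  | x :: u, i, j => ∃ k, entry (θ x) i k = true ∧ relW θ u k j

theorem relW_append {θ : ℕ → B21} {u v : List ℕ} {i j : Bool} :
    relW θ (u ++ v) i j ↔ ∃ k, relW θ u i k ∧ relW θ v k j := by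
  induction u generalizing i with
  | nil =>
    constructor
    · intro h
      exact ⟨i, rfl, h⟩
    · rintro ⟨k, h1, h2⟩
      have h1 : i = k := h1
      rw [h1]
      exact h2
  | cons x u ih =>
    constructor
    · rintro ⟨k, h1, h2⟩
      obtain ⟨l, h3, h4⟩ := ih.1 h2
      exact ⟨l, ⟨k, h1, h3⟩, h4⟩
    · rintro ⟨l, ⟨k, h1, h3⟩, h4⟩
      exact ⟨k, h1, ih.2 ⟨l, h3, h4⟩⟩

theorem relW_right {θ : ℕ → B21} {u : List ℕ} {i j j' : Bool} (h : relW θ u i j)
    (h' : relW θ u i j') : j = j' := by
  induction u generalizing i with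
  | nil =>
    have h : i = j := h
    have h' : i = j' := h'
    rw [← h, ← h']
  | cons x u ih =>
    obtain ⟨k, h1, h2⟩ := h
    obtain ⟨k', h1', h2'⟩ := h'
    have := entry_right _ _ _ _ h1 h1'
    subst this
    exact ih h2 h2'

theorem relW_left {θ : ℕ → B21} {u : List ℕ} {i i' j : Bool} (h : relW θ u i j)
    (h' : relW θ u i' j) : i = i' := by
  induction u generalizing i i' with
  | nil =>
    have h : i = j := h
    have h' : i' = j := h'
    rw [h, h']
  | cons x u ih =>
    obtain ⟨k, h1, h2⟩ := h
    obtain ⟨k', h1', h2'⟩ := h'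
    have := ih h2 h2'
    subst this
    exact entry_left _ _ _ _ h1 h1'

theorem entry_eval (θ : ℕ → B21) (t : Term) (i j : Bool) :
    entry (t.eval θ) i j = true ↔ ∀ u ∈ t.wd, relW θ u i j := by
  induction t generalizing i j with
  | var x =>
    simp only [Term.eval, Term.wd, Set.mem_singleton_iff, forall_eq, relW, exists_eq_right]
  | add s t hs ht =>
    rw [Term.eval, entry_add, hs, ht]
    constructor
    · rintro ⟨h1, h2⟩ u (hu | hu)
      · exact h1 u hu
      · exact h2 u hu
    · intro h
      exact ⟨fun u hu => h u (Or.inl hu), fun u hu => h u (Or.inr hu)⟩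
  | mul s t hs ht =>
    rw [Term.eval, entry_mul]
    constructor
    · rintro ⟨k, h1, h2⟩ w ⟨u, hu, v, hv, rfl⟩
      exact relW_append.2 ⟨k, (hs i k).1 h1 u hu, (ht k j).1 h2 v hv⟩
    · intro h
      obtain ⟨u₀, hu₀⟩ := s.wd_nonempty
      obtain ⟨v₀, hv₀⟩ := t.wd_nonempty
      obtain ⟨k, h1, h2⟩ := relW_append.1 (h _ ⟨u₀, hu₀, v₀, hv₀, rfl⟩)
      refine ⟨k, (hs i k).2 fun u hu => ?_, (ht k j).2 fun v hv => ?_⟩
      · obtain ⟨k', h3, h4⟩ := relW_append.1 (h _ ⟨u, hu, v₀, hv₀, rfl⟩)
        rw [relW_left h2 h4]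
        exact h3
      · obtain ⟨k', h3, h4⟩ := relW_append.1 (h _ ⟨u₀, hu₀, v, hv, rfl⟩)
        rw [relW_right h1 h3]
        exact h4

/-! ### From valid colourings to assignments -/

theorem acc_of_identity {s t : Term} (hst : ∀ θ : ℕ → B21, s.eval θ = t.eval θ)
    {len : ℕ → ℕ} {a L : ℕ} (hL : ∀ u ∈ s.wd, wl len u = L) {v : List ℕ} (hv : v ∈ t.wd)
    (c : ℕ → Bool) (hc : Valid len s.wd a c) :
    Acc len s.wd a c (c a) v (c (a + L)) := by
  have hex : ∀ x, ∃ e : B21, ∀ i j, entry e i j = true ↔
      ∃ g, Occ len s.wd a x g ∧ c g = i ∧ c (g + len x) = j := by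
    intro x
    apply exists_entry
    rintro i j i' j' ⟨g, h1, rfl, rfl⟩ ⟨g', h1', rfl, rfl⟩
    exact hc x g g' h1 h1'
  choose θ hθ using hex
  have h1 : entry (s.eval θ) (c a) (c (a + L)) = true := by
    rw [entry_eval]
    intro u hu
    have key : ∀ u'' u' : List ℕ, u' ++ u'' ∈ s.wd →
        relW θ u'' (c (a + wl len u')) (c (a + wl len (u' ++ u''))) := by
      intro u''
      induction u'' with
      | nil =>
        intro u' _
        rw [List.append_nil]
        exact rfl
      | cons x u'' ih =>
        intro u' hu'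
        refine ⟨c (a + wl len u' + len x), (hθ x _ _).2
          ⟨a + wl len u', ⟨u', u'', hu', rfl⟩, rfl, rfl⟩, ?_⟩
        have h2 : u' ++ x :: u'' = (u' ++ [x]) ++ u'' := by simp
        rw [h2] at hu' ⊢
        have := ih _ hu'
        rw [wl_append u' [x], wl_cons, wl_nil, Nat.add_zero, ← Nat.add_assoc] at this
        exact this
    have := key u [] hu
    rw [wl_nil, Nat.add_zero, List.nil_append, hL u hu] at this
    exact this
  rw [hst θ, entry_eval] at h1
  have h2 := h1 v hv
  have key : ∀ (w : List ℕ) (i j : Bool), relW θ w i j → Acc len s.wd a c i w j := by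
    intro w
    induction w with
    | nil => intro i j h; exact h
    | cons y w ih =>
      rintro i j ⟨k, h3, h4⟩
      obtain ⟨g, h5, h6, h7⟩ := (hθ y i k).1 h3
      refine ⟨g, h5, h6, ?_⟩
      rw [h7]
      exact ih _ _ h4
  exact key _ _ _ h2

theorem acc_occ {len : ℕ → ℕ} {U : Set (List ℕ)} {a : ℕ} {c : ℕ → Bool} {w : List ℕ}
    {s s' : Bool} (h : Acc len U a c s w s') : ∀ y ∈ w, ∃ g, Occ len U a y g := by
  induction w generalizing s with
  | nil => intro y hy; simp at hy
  | cons z w ih =>
    obtain ⟨g, h1, -, h3⟩ := h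
    intro y hy
    rcases List.mem_cons.1 hy with rfl | hy
    · exact ⟨g, h1⟩
    · exact ih h3 y hy

/-- **Identities of the Brandt monoid semiring are respected by readings along the self-similar
word.** -/
theorem reading {s t : Term} (hst : ∀ θ : ℕ → B21, s.eval θ = t.eval θ) {r : ℕ} {α : Type}
    (S : SelfSim r α) (hr : 2 * s.vars.card + 2 ≤ r) {len : ℕ → ℕ} {φ : ℕ → ℕ → α} {a L : ℕ}
    (hU : ∀ u ∈ s.wd, Parse S.W len φ a u ∧ wl len u = L) {v : List ℕ} (hv : v ∈ t.wd) :
    (Parse S.W len φ a v ∧ wl len v = L) ∧ ∀ y ∈ v, ∃ u ∈ s.wd, y ∈ u := by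
  have hacc := fun c hc => acc_of_identity hst (fun u hu => (hU u hu).2) hv (a := a) c hc
  refine ⟨main S s.vars hr s.wd s.wd_vars v _ len φ a L rfl hU hacc, ?_⟩
  intro y hy
  obtain ⟨g, u', u'', hu, -⟩ :=
    acc_occ (hacc (fun _ => true) (fun _ _ _ _ _ => Or.inl ⟨rfl, rfl⟩)) y hy
  exact ⟨_, hu, by simp⟩

end Pool.Agent.H88.Brandt
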